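import Mathlib
import Pool.Agent.TH526.ZL.N

/-!
# The coarse groups `(ℤ, d_Q)` determine the finite set of primes `Q`

For finite non-empty sets of primes `Q₁`, `Q₂` the coarse groups `(ℤ, d_{Q₁})` and `(ℤ, d_{Q₂})` are
coarsely isomorphic if and only if `Q₁ = Q₂`.

Proof. Let `f : (ℤ, d₁) → (ℤ, d₂)` be a coarse isomorphism and let `p ∈ Q₁` be not in `Q₂`.
Multiplication by `p ^ κ` does not increase the length `d₁(·, 0)`, and `f (p ^ κ z)` is at bounded
distance (depending on `κ`) from `p ^ κ f(z)`; so `d₂(p ^ κ x, 0) ≤ A d₂(x, 0) + B(κ)` for all `x`,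
where `A` does not depend on `κ`. By the theorem on `S`-unit equations the length of
`p ^ κ q ^ c` (`q ∈ Q₂`) is larger than `A` for a suitable `κ` and all `c`, and the length of
`p ^ κ (q ^ c₁ + ⋯ + q ^ c_N)` is at least `N (A + 1)` if the exponents `c_i` are far apart: for
large `N` this is a contradiction.
-/

set_option autoImplicit false

namespace Pool.Agent.Results.MP_584ea6_al.IsomorphicOnlyIfEqual

open Filter Pool.Agent.TH551.SU

/-- `x = s` or `x = -s` for a product `s` of elements of `Q` (the empty product `1` is allowed). -/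
def Gen (Q : Set ℕ) (x : ℤ) : Prop := ∃ s ∈ Submonoid.closure Q, x = (s : ℤ) ∨ x = -(s : ℤ)

/-- `x` is a sum of exactly `k` terms `±s`, `s ∈ Q^*`. -/
def IsSum (Q : Set ℕ) (k : ℕ) (x : ℤ) : Prop :=
  ∃ l : List ℤ, l.length = k ∧ (∀ t ∈ l, Gen Q t) ∧ l.sum = x

/-- The word metric `d_Q` on `ℤ`: the least `k` such that `m - n` is a sum of `k` terms `±s`,
`s ∈ Q^*`. -/
noncomputable def wd (Q : Set ℕ) (m n : ℤ) : ℕ := sInf {k | IsSum Q k (m - n)}

/-- controlled maps -/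
def Controlled (d d' : ℤ → ℤ → ℕ) (f : ℤ → ℤ) : Prop :=
  ∀ r : ℕ, ∃ R : ℕ, ∀ x y, d x y ≤ r → d' (f x) (f y) ≤ R

/-- coarse homomorphisms -/
def CoarseHom (d d' : ℤ → ℤ → ℕ) (f : ℤ → ℤ) : Prop :=
  Controlled d d' f ∧ ∃ C : ℕ, ∀ x y, d' (f (x + y)) (f x + f y) ≤ C

/-- The coarse groups `(ℤ, d)` and `(ℤ, d')` are coarsely isomorphic. -/
def CoarselyIsomorphic (d d' : ℤ → ℤ → ℕ) : Prop :=
  ∃ f : ℤ → ℤ, CoarseHom d d' f ∧ ∃ g : ℤ → ℤ, Controlled d' d g ∧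
    (∃ D : ℕ, ∀ x, d (g (f x)) x ≤ D) ∧ ∃ D : ℕ, ∀ y, d' (f (g y)) y ≤ D

section basic

variable {Q : Set ℕ}

lemma gen_one : Gen Q 1 := ⟨1, one_mem _, Or.inl rfl⟩

lemma Gen.neg {x : ℤ} (h : Gen Q x) : Gen Q (-x) := by
  obtain ⟨s, hs, h | h⟩ := h
  · exact ⟨s, hs, Or.inr (by rw [h])⟩
  · exact ⟨s, hs, Or.inl (by rw [h, neg_neg])⟩

lemma Gen.mul {x y : ℤ} (h : Gen Q x) (h' : Gen Q y) : Gen Q (x * y) := by
  obtain ⟨s, hs, h⟩ := h
  obtain ⟨t, ht, h'⟩ := h'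
  refine ⟨s * t, mul_mem hs ht, ?_⟩
  rcases h with h | h <;> rcases h' with h' | h' <;> subst h <;> subst h' <;> push_cast
  · exact Or.inl rfl
  · exact Or.inr (by ring)
  · exact Or.inr (by ring)
  · exact Or.inl (by ring)

lemma gen_of_mem {q : ℕ} (hq : q ∈ Q) : Gen Q q := ⟨q, Submonoid.subset_closure hq, Or.inl rfl⟩

lemma gen_pow {q : ℕ} (hq : q ∈ Q) (c : ℕ) : Gen Q ((q : ℤ) ^ c) :=
  ⟨q ^ c, pow_mem (Submonoid.subset_closure hq) c, Or.inl (by push_cast; rfl)⟩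

lemma IsSum.zero : IsSum Q 0 0 := ⟨[], rfl, by simp, rfl⟩

lemma IsSum.one {x : ℤ} (h : Gen Q x) : IsSum Q 1 x := ⟨[x], rfl, by simpa using h, by simp⟩

lemma IsSum.add {k l : ℕ} {x y : ℤ} (hx : IsSum Q k x) (hy : IsSum Q l y) :
    IsSum Q (k + l) (x + y) := by
  obtain ⟨a, ha, ha', rfl⟩ := hx
  obtain ⟨b, hb, hb', rfl⟩ := hy
  refine ⟨a ++ b, by rw [List.length_append, ha, hb], fun t ht => ?_, List.sum_append⟩
  rcases List.mem_append.1 ht with h | h
  · exact ha' t h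
  · exact hb' t h

lemma IsSum.mul {k : ℕ} {x u : ℤ} (hx : IsSum Q k x) (hu : Gen Q u) : IsSum Q k (u * x) := by
  obtain ⟨a, ha, ha', rfl⟩ := hx
  refine ⟨a.map (u * ·), by rw [List.length_map, ha], fun t ht => ?_, ?_⟩
  · obtain ⟨t', ht', rfl⟩ := List.mem_map.1 ht
    exact hu.mul (ha' t' ht')
  · rw [List.sum_map_mul_left, List.map_id']

lemma IsSum.neg {k : ℕ} {x : ℤ} (hx : IsSum Q k x) : IsSum Q k (-x) := by
  have := hx.mul gen_one.neg
  rwa [neg_one_mul] at this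

lemma IsSum.nsmul {k : ℕ} {x : ℤ} (hx : IsSum Q k x) (c : ℕ) : IsSum Q (c * k) (c * x) := by
  induction c with
  | zero =>
    rw [zero_mul, Nat.cast_zero, zero_mul]
    exact IsSum.zero
  | succ c ih =>
    have := ih.add hx
    rw [Nat.succ_mul]
    push_cast
    rw [add_one_mul]
    exact this

lemma exists_isSum (x : ℤ) : ∃ k, IsSum Q k x := by
  rcases Int.natAbs_eq x with h | h
  · refine ⟨x.natAbs * 1, ?_⟩
    have := (IsSum.one (gen_one (Q := Q))).nsmul x.natAbs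
    rw [mul_one ((x.natAbs : ℕ) : ℤ)] at this
    rw [← h] at this
    exact this
  · refine ⟨x.natAbs * 1, ?_⟩
    have := ((IsSum.one (gen_one (Q := Q))).nsmul x.natAbs).neg
    rw [mul_one ((x.natAbs : ℕ) : ℤ)] at this
    rw [← h] at this
    exact this

lemma wd_spec (m n : ℤ) : IsSum Q (wd Q m n) (m - n) :=
  Nat.sInf_mem (s := {k | IsSum Q k (m - n)}) (exists_isSum (m - n))

lemma wd_le {k : ℕ} {m n : ℤ} (h : IsSum Q k (m - n)) : wd Q m n ≤ k := Nat.sInf_le h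

lemma wd_tri (m n r : ℤ) : wd Q m r ≤ wd Q m n + wd Q n r := by
  apply wd_le
  have := (wd_spec (Q := Q) m n).add (wd_spec n r)
  rwa [sub_add_sub_cancel] at this

lemma wd_self (m : ℤ) : wd Q m m = 0 := by
  have : wd Q m m ≤ 0 := wd_le (by rw [sub_self]; exact IsSum.zero)
  omega

lemma wd_comm (m n : ℤ) : wd Q m n = wd Q n m := by
  have h : ∀ a b : ℤ, wd Q a b ≤ wd Q b a := fun a b => wd_le (by
    have := (wd_spec (Q := Q) b a).neg
    rwa [neg_sub] at this)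
  exact le_antisymm (h m n) (h n m)

lemma wd_add (m n a : ℤ) : wd Q (m + a) (n + a) = wd Q m n := by
  unfold wd
  rw [add_sub_add_right_eq_sub]

lemma wd_mul (c : ℕ) (m n : ℤ) : wd Q (c * m) (c * n) ≤ c * wd Q m n := by
  apply wd_le
  have := (wd_spec (Q := Q) m n).nsmul c
  rwa [mul_sub] at this

lemma wd_unit {u : ℤ} (hu : Gen Q u) (m : ℤ) : wd Q (u * m) 0 ≤ wd Q m 0 := by
  apply wd_le
  have := (wd_spec (Q := Q) m 0).mul hu
  rwa [sub_zero] at this ⊢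

end basic

/-- controlled maps are Lipschitz -/
lemma lipschitz {Q Q' : Set ℕ} {f : ℤ → ℤ} (hf : Controlled (wd Q) (wd Q') f) :
    ∃ R : ℕ, ∀ x y, wd Q' (f x) (f y) ≤ R * wd Q x y := by
  obtain ⟨R, hR⟩ := hf 1
  have key : ∀ l : List ℤ, (∀ t ∈ l, Gen Q t) → ∀ x y : ℤ, l.sum = x - y →
      wd Q' (f x) (f y) ≤ R * l.length := by
    intro l
    induction l with
    | nil =>
      intro _ x y h
      rw [List.sum_nil] at h
      have : x = y := by omega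
      rw [this, wd_self]
      exact Nat.zero_le _
    | cons t l ih =>
      intro ht x y h
      rw [List.sum_cons] at h
      have h1 := ih (fun s hs => ht s (List.mem_cons_of_mem _ hs)) (y + l.sum) y (by ring)
      have h2 : wd Q x (y + l.sum) ≤ 1 := by
        apply wd_le
        have : x - (y + l.sum) = t := by omega
        rw [this]
        exact IsSum.one (ht t (List.mem_cons_self))
      have h3 := hR _ _ h2
      have h4 := wd_tri (Q := Q') (f x) (f (y + l.sum)) (f y)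
      rw [List.length_cons, mul_add, mul_one]
      omega
  refine ⟨R, fun x y => ?_⟩
  obtain ⟨l, hl, hl', hs⟩ := wd_spec (Q := Q) x y
  have := key l hl' x y hs
  rwa [hl] at this

/-- a coarse homomorphism almost commutes with multiplication by a fixed integer -/
lemma almost_mul {Q' : Set ℕ} {f : ℤ → ℤ} {C : ℕ}
    (hC : ∀ x y, wd Q' (f (x + y)) (f x + f y) ≤ C) (m : ℕ) (z : ℤ) :
    wd Q' (f ((m + 1 : ℕ) * z)) ((m + 1 : ℕ) * f z) ≤ m * C := by
  induction m with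
  | zero =>
    simp [wd_self]
  | succ m ih =>
    have e1 : ((m + 1 + 1 : ℕ) : ℤ) * z = (m + 1 : ℕ) * z + z := by push_cast; ring
    have e2 : ((m + 1 + 1 : ℕ) : ℤ) * f z = (m + 1 : ℕ) * f z + f z := by push_cast; ring
    rw [e1, e2]
    have h1 := hC ((m + 1 : ℕ) * z) z
    have h2 := wd_tri (Q := Q') (f ((m + 1 : ℕ) * z + z)) (f ((m + 1 : ℕ) * z) + f z)
      ((m + 1 : ℕ) * f z + f z)
    rw [wd_add] at h2
    rw [Nat.succ_mul]
    omega

/-- the main inequality -/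
lemma main_ineq {Q Q' : Set ℕ} {f g : ℤ → ℤ} (hf : CoarseHom (wd Q) (wd Q') f)
    (hg : Controlled (wd Q') (wd Q) g) (hfg : ∃ D : ℕ, ∀ y, wd Q' (f (g y)) y ≤ D) {p : ℕ}
    (hp : p ∈ Q) (hp1 : 1 ≤ p) :
    ∃ A : ℕ, ∀ κ : ℕ, ∃ B : ℕ, ∀ x : ℤ, wd Q' ((p : ℤ) ^ κ * x) 0 ≤ A * wd Q' x 0 + B := by
  obtain ⟨hf1, C, hC⟩ := hf
  obtain ⟨D, hD⟩ := hfg
  obtain ⟨R₁, hR₁⟩ := lipschitz hf1
  obtain ⟨R₂, hR₂⟩ := lipschitz hg
  refine ⟨R₁ * R₂, fun κ => ?_⟩
  obtain ⟨m, hm⟩ : ∃ m : ℕ, p ^ κ = m + 1 := ⟨p ^ κ - 1, by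
    have : 1 ≤ p ^ κ := Nat.one_le_pow _ _ hp1
    omega⟩
  have hmz : (p : ℤ) ^ κ = (m + 1 : ℕ) := by exact_mod_cast hm
  refine ⟨(m + 1) * D + m * C + R₁ * wd Q (g 0) 0 + wd Q' (f 0) 0, fun x => ?_⟩
  have h1 := almost_mul hC m (g x)
  have h2 := wd_mul (Q := Q') (m + 1) x (f (g x))
  have h3 := hD x
  rw [wd_comm] at h3
  have h4 := hR₁ ((m + 1 : ℕ) * g x) 0
  have h5 : wd Q ((m + 1 : ℕ) * g x) 0 ≤ wd Q (g x) 0 := by
    rw [← hmz]
    exact wd_unit (gen_pow hp κ) _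
  have h6 := wd_tri (Q := Q) (g x) (g 0) 0
  have h7 := hR₂ x 0
  rw [hmz]
  have t1 := wd_tri (Q := Q') ((m + 1 : ℕ) * x) ((m + 1 : ℕ) * f (g x)) 0
  have t2 := wd_tri (Q := Q') ((m + 1 : ℕ) * f (g x)) (f ((m + 1 : ℕ) * g x)) 0
  have t3 := wd_tri (Q := Q') (f ((m + 1 : ℕ) * g x)) (f 0) 0
  rw [wd_comm] at h1
  have h8 : R₁ * wd Q ((m + 1 : ℕ) * g x) 0 ≤ R₁ * (R₂ * wd Q' x 0 + wd Q (g 0) 0) :=
    Nat.mul_le_mul_left _ (by omega)
  have h9 : (m + 1) * wd Q' x (f (g x)) ≤ (m + 1) * D := Nat.mul_le_mul_left _ h3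
  rw [mul_add, ← mul_assoc] at h8
  omega

section sunit

variable {s : ℕ} {b : Fin s → ℕ}

lemma isSU_one : IsSU b 1 := ⟨1, 0, Or.inl rfl, by simp⟩

lemma isSU_mul (hb : ∀ v, (b v).Prime) {x y : ℚ} (hx : IsSU b x) (hy : IsSU b y) :
    IsSU b (x * y) := by
  obtain ⟨σ, e, hσ, rfl⟩ := hx
  obtain ⟨τ, f, hτ, rfl⟩ := hy
  refine ⟨σ * τ, e + f, ?_, ?_⟩
  · rcases hσ with rfl | rfl <;> rcases hτ with rfl | rfl <;> norm_num
  · have : ∏ v, (b v : ℚ) ^ ((e + f) v) = (∏ v, (b v : ℚ) ^ (e v)) * ∏ v, (b v : ℚ) ^ (f v) := by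
      rw [← Finset.prod_mul_distrib]
      refine Finset.prod_congr rfl fun v _ => ?_
      rw [Pi.add_apply, zpow_add₀]
      exact_mod_cast (hb v).ne_zero
    rw [this]
    push_cast
    ring

lemma isSU_neg {x : ℚ} (hx : IsSU b x) : IsSU b (-x) := by
  obtain ⟨σ, e, hσ, rfl⟩ := hx
  refine ⟨-σ, e, ?_, ?_⟩
  · rcases hσ with rfl | rfl <;> norm_num
  · push_cast
    ring

lemma isSU_prime (v : Fin s) : IsSU b (b v) := by
  classical
  refine ⟨1, Pi.single v 1, Or.inl rfl, ?_⟩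
  rw [Int.cast_one, one_mul, Finset.prod_eq_single v]
  · rw [Pi.single_eq_same, zpow_one]
  · intro w _ hw
    rw [Pi.single_eq_of_ne hw, zpow_zero]
  · intro h
    exact absurd (Finset.mem_univ v) h

lemma isSU_cl (hb : ∀ v, (b v).Prime) {Q : Set ℕ} (hQ : ∀ q ∈ Q, ∃ v, b v = q) {t : ℕ}
    (ht : t ∈ Submonoid.closure Q) : IsSU b ((t : ℕ) : ℚ) := by
  induction ht using Submonoid.closure_induction with
  | mem q hq =>
    obtain ⟨v, hv⟩ := hQ q hq
    rw [← hv]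
    exact isSU_prime v
  | one =>
    rw [Nat.cast_one]
    exact isSU_one
  | mul a c _ _ ha hc =>
    rw [Nat.cast_mul]
    exact isSU_mul hb ha hc

lemma isSU_gen (hb : ∀ v, (b v).Prime) {Q : Set ℕ} (hQ : ∀ q ∈ Q, ∃ v, b v = q) {x : ℤ}
    (hx : Gen Q x) : IsSU b (x : ℚ) := by
  obtain ⟨t, ht, h⟩ := hx
  have h1 := isSU_cl hb hQ ht
  rcases h with h | h
  · rw [h, Int.cast_natCast]
    exact h1
  · rw [h, Int.cast_neg, Int.cast_natCast]
    exact isSU_neg h1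

/-- the `S`-unit theorem for a finite index type -/
lemma sunit' (hb : ∀ v, (b v).Prime) (hbi : Function.Injective b) {ι : Type} [Fintype ι]
    (a : ι → ℚ) (i₀ : ι) (h₀ : a i₀ ≠ 0) :
    ∃ H : ℕ, ∀ x : ι → ℚ, (∀ i, a i ≠ 0 → IsSU b (x i)) → ∑ i, a i * x i = 0 →
      ∃ j, j ≠ i₀ ∧ a j ≠ 0 ∧ (x i₀ / x j).num.natAbs ≤ H ∧ (x i₀ / x j).den ≤ H := by
  classical
  obtain ⟨e⟩ : Nonempty ({i // a i ≠ 0} ≃ Fin (Fintype.card {i // a i ≠ 0})) :=
    ⟨Fintype.equivFin _⟩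
  obtain ⟨H, hH⟩ := Pool.Agent.TH526.ZL.sunit b hb hbi (fun i => a (e.symm i))
    (fun i => (e.symm i).2) (e ⟨i₀, h₀⟩)
  refine ⟨H, fun x hx hs => ?_⟩
  have h3 : ∑ i : {i // a i ≠ 0}, a i * x i = 0 := by
    rw [← Finset.sum_subtype (Finset.univ.filter (fun i => a i ≠ 0)) (by simp)
      (fun i => a i * x i)]
    have h5 := Finset.sum_filter_add_sum_filter_not Finset.univ (fun i => a i ≠ 0)
      (fun i => a i * x i)
    rw [Finset.sum_eq_zero (s := Finset.univ.filter fun i => ¬ a i ≠ 0) (fun i hi => by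
        have := (Finset.mem_filter.1 hi).2
        push Not at this
        rw [this, zero_mul]), add_zero, hs] at h5
    exact h5
  obtain ⟨j, hj, h1, h2⟩ := hH (fun i => x (e.symm i)) (fun i => hx _ (e.symm i).2)
    ((Equiv.sum_comp e.symm (fun i : {i // a i ≠ 0} => a i * x i)).trans h3)
  refine ⟨e.symm j, fun h => hj ?_, (e.symm j).2, ?_, ?_⟩
  · rw [← e.apply_symm_apply j]
    congr 1
    exact Subtype.ext h
  · simpa using h1
  · simpa using h2

end sunit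

/-- an enumeration of a finite set of primes -/
lemma exists_enum {Q : Set ℕ} (hQf : Q.Finite) (hQp : ∀ q ∈ Q, q.Prime) :
    ∃ (s : ℕ) (b : Fin s → ℕ), (∀ v, (b v).Prime) ∧ Function.Injective b ∧
      ∀ q ∈ Q, ∃ v, b v = q := by
  classical
  obtain ⟨e⟩ : Nonempty (hQf.toFinset ≃ Fin hQf.toFinset.card) := ⟨hQf.toFinset.equivFin⟩
  refine ⟨hQf.toFinset.card, fun v => (e.symm v : ℕ), fun v => ?_, fun v w h => ?_, fun q hq => ?_⟩
  · exact hQp _ ((hQf.mem_toFinset).1 (e.symm v).2)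
  · exact e.symm.injective (Subtype.ext h)
  · refine ⟨e ⟨q, hQf.mem_toFinset.2 hq⟩, ?_⟩
    simp

/-- a function with values in a finite set is constant along an ultrafilter -/
lemma const_of_finite (U : Ultrafilter ℕ) (f : ℕ → ℚ) {S : Set ℚ} (hS : S.Finite)
    (h : ∀ᶠ c in U, f c ∈ S) : ∃ v, ∀ᶠ c in U, f c = v := by
  by_contra hcon
  push Not at hcon
  have h1 : ∀ v ∈ S, ∀ᶠ c in U, f c ≠ v := fun v _ => hcon v
  have h2 : ∀ᶠ c in U, ∀ v ∈ S, f c ≠ v := (Filter.eventually_all_finite hS).2 h1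
  obtain ⟨c, hc, hc'⟩ := (h.and h2).exists
  exact hc' _ hc rfl

lemma finite_height (H : ℕ) : {r : ℚ | r.num.natAbs ≤ H ∧ r.den ≤ H}.Finite := by
  refine (((Finset.Icc (-(H : ℤ)) H ×ˢ Finset.range (H + 1)).image
    (fun z => (z.1 : ℚ) / (z.2 : ℚ))).finite_toSet).subset fun r hr => ?_
  rw [Finset.mem_coe, Finset.mem_image]
  refine ⟨(r.num, r.den), ?_, Rat.num_div_den r⟩
  rw [Finset.mem_product, Finset.mem_Icc, Finset.mem_range]
  obtain ⟨h1, h2⟩ := hr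
  refine ⟨⟨?_, ?_⟩, by omega⟩ <;> simp only <;> omega

/-- a sum over a finite set of indices -/
lemma isSum_finset {Q : Set ℕ} {ι : Type} (s : ι → ℤ) (J : Finset ι)
    (hs : ∀ j ∈ J, s j = 0 ∨ Gen Q (s j)) : ∃ k ≤ J.card, IsSum Q k (∑ j ∈ J, s j) := by
  classical
  induction J using Finset.induction_on with
  | empty => exact ⟨0, le_rfl, by rw [Finset.sum_empty]; exact IsSum.zero⟩
  | insert j J hj ih =>
    obtain ⟨k, hk, hk'⟩ := ih fun i hi => hs i (Finset.mem_insert_of_mem hi)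
    rw [Finset.sum_insert hj, Finset.card_insert_of_notMem hj]
    rcases hs j (Finset.mem_insert_self _ _) with h | h
    · exact ⟨k, by omega, by rw [h, zero_add]; exact hk'⟩
    · exact ⟨1 + k, by omega, (IsSum.one h).add hk'⟩

/-- the length of `y + w q ^ c` is at least the sum of the lengths -/
lemma step {Q : Set ℕ} (hQf : Q.Finite) (hQp : ∀ q ∈ Q, q.Prime) {q : ℕ} (hq : q ∈ Q) (y w : ℤ)
    (K R : ℕ) (hy : ∀ k < K, ¬ IsSum Q k y)
    (hw : ∀ c : ℕ, ∀ k ≤ R, ¬ IsSum Q k (w * (q : ℤ) ^ c)) :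
    ∃ c : ℕ, ∀ k < K + R + 1, ¬ IsSum Q k (y + w * (q : ℤ) ^ c) := by
  classical
  by_contra hcon
  push Not at hcon
  choose k hk l hlen hl hsum using hcon
  have hq1 : 1 < q := (hQp q hq).one_lt
  have hq0 : (q : ℚ) ≠ 0 := by exact_mod_cast (by omega : q ≠ 0)
  obtain ⟨M, hM⟩ : ∃ M, M = K + R := ⟨_, rfl⟩
  obtain ⟨s, hs⟩ : ∃ s : ℕ → Fin M → ℤ, ∀ c j, s c j = (l c).getD j 0 := ⟨_, fun _ _ => rfl⟩
  have hs0 : ∀ c j, s c j = 0 ∨ Gen Q (s c j) := by
    intro c j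
    rw [hs]
    rcases lt_or_ge (j : ℕ) (l c).length with h | h
    · right
      rw [List.getD_eq_getElem _ _ h]
      exact hl c _ (List.getElem_mem h)
    · left
      exact List.getD_eq_default _ _ h
  have hss : ∀ c, ∑ j, s c j = y + w * (q : ℤ) ^ c := by
    intro c
    rw [← hsum c]
    have h1 : ∀ (l : List ℤ) (M : ℕ), l.length ≤ M → ∑ j : Fin M, l.getD j 0 = l.sum := by
      intro l
      induction l with
      | nil =>
        intro M _
        simp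
      | cons a l ih =>
        intro M hM
        obtain ⟨M, rfl⟩ : ∃ M', M = M' + 1 := ⟨M - 1, by
          rw [List.length_cons] at hM
          omega⟩
        rw [Fin.sum_univ_succ, List.sum_cons]
        simp only [Fin.val_zero, List.getD_cons_zero, Fin.val_succ, List.getD_cons_succ]
        rw [ih M (by rw [List.length_cons] at hM; omega)]
    simp_rw [hs]
    apply h1
    have := hk c
    have := hlen c
    omega
  obtain ⟨U, hU⟩ : ∃ U : Ultrafilter ℕ, (U : Filter ℕ) ≤ atTop := ⟨hyperfilter ℕ, by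
    rw [← Nat.cofinite_eq_atTop]
    exact hyperfilter_le_cofinite⟩
  -- the three kinds of indices
  obtain ⟨J₁, hJ₁⟩ : ∃ J : Finset (Fin M), ∀ j, j ∈ J ↔ ∃ v : ℤ, ∀ᶠ c in U, s c j = v :=
    ⟨Finset.univ.filter fun j => ∃ v : ℤ, ∀ᶠ c in U, s c j = v, fun j => by simp⟩
  obtain ⟨J₂, hJ₂⟩ : ∃ J : Finset (Fin M), ∀ j, j ∈ J ↔ j ∉ J₁ ∧
      ∃ v : ℚ, ∀ᶠ c in U, (s c j : ℚ) = v * (q : ℚ) ^ c :=
    ⟨Finset.univ.filter fun j => j ∉ J₁ ∧ ∃ v : ℚ, ∀ᶠ c in U, (s c j : ℚ) = v * (q : ℚ) ^ c,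
      fun j => by simp⟩
  have hv : ∀ j, ∃ v : ℤ, j ∈ J₁ → ∀ᶠ c in U, s c j = v := by
    intro j
    by_cases h : j ∈ J₁
    · obtain ⟨v, hv⟩ := (hJ₁ j).1 h
      exact ⟨v, fun _ => hv⟩
    · exact ⟨0, fun h' => absurd h' h⟩
  choose v hv using hv
  have hr : ∀ j, ∃ r : ℚ, j ∈ J₂ → ∀ᶠ c in U, (s c j : ℚ) = r * (q : ℚ) ^ c := by
    intro j
    by_cases h : j ∈ J₂
    · obtain ⟨v, hv⟩ := ((hJ₂ j).1 h).2
      exact ⟨v, fun _ => hv⟩
    · exact ⟨0, fun h' => absurd h' h⟩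
  choose r hr using hr
  have hv' : ∀ᶠ c in U, ∀ j, j ∈ J₁ → s c j = v j :=
    Filter.eventually_all.2 fun j => by
      by_cases h : j ∈ J₁
      · exact (hv j h).mono fun c hc _ => hc
      · exact Eventually.of_forall fun c h' => absurd h' h
  have hr' : ∀ᶠ c in U, ∀ j, j ∈ J₂ → (s c j : ℚ) = r j * (q : ℚ) ^ c :=
    Filter.eventually_all.2 fun j => by
      by_cases h : j ∈ J₂
      · exact (hr j h).mono fun c hc _ => hc
      · exact Eventually.of_forall fun c h' => absurd h' h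
  have hdisj : Disjoint J₁ J₂ := Finset.disjoint_left.2 fun j h1 h2 => ((hJ₂ j).1 h2).1 h1
  obtain ⟨y', hy'⟩ : ∃ y' : ℚ, y' = y - ∑ j ∈ J₁, (v j : ℚ) := ⟨_, rfl⟩
  obtain ⟨z', hz'⟩ : ∃ z' : ℚ, z' = w - ∑ j ∈ J₂, r j := ⟨_, rfl⟩
  obtain ⟨J₃, hJ₃⟩ : ∃ J : Finset (Fin M), ∀ j, j ∈ J ↔ j ∉ J₁ ∧ j ∉ J₂ :=
    ⟨Finset.univ.filter fun j => j ∉ J₁ ∧ j ∉ J₂, fun j => by simp⟩
  have hsplit : ∀ c, ∑ j, (s c j : ℚ) = ∑ j ∈ J₁, (s c j : ℚ) + ∑ j ∈ J₂, (s c j : ℚ) +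
      ∑ j ∈ J₃, (s c j : ℚ) := by
    intro c
    have h3 : Disjoint (J₁ ∪ J₂) J₃ := by
      rw [Finset.disjoint_left]
      intro j h1 h2
      rw [hJ₃] at h2
      rcases Finset.mem_union.1 h1 with h | h
      · exact h2.1 h
      · exact h2.2 h
    rw [← Finset.sum_union hdisj, ← Finset.sum_union h3]
    congr 1
    ext j
    simp only [Finset.mem_univ, Finset.mem_union, hJ₃, true_iff]
    tauto
  have hrel : ∀ᶠ c in U, y' + z' * (q : ℚ) ^ c - ∑ j ∈ J₃, (s c j : ℚ) = 0 := by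
    filter_upwards [hv', hr'] with c h1 h2
    have h3 := hsplit c
    have h4 : ∑ j, (s c j : ℚ) = y + w * (q : ℚ) ^ c := by exact_mod_cast hss c
    rw [h4, Finset.sum_congr rfl (fun j hj => by rw [h1 j hj] : ∀ j ∈ J₁, (s c j : ℚ) = v j),
      Finset.sum_congr rfl (fun j hj => h2 j hj)] at h3
    rw [← Finset.sum_mul] at h3
    rw [hy', hz']
    linear_combination h3
  have hnz : ∀ᶠ c in U, ∀ j, j ∈ J₃ → s c j ≠ 0 :=
    Filter.eventually_all.2 fun j => by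
      by_cases h : j ∈ J₃
      · have h1 : ¬ ∀ᶠ c in U, s c j = 0 := fun h2 =>
          ((hJ₃ j).1 h).1 ((hJ₁ j).2 ⟨0, h2⟩)
        exact (Ultrafilter.eventually_not.2 h1).mono fun c hc _ => hc
      · exact Eventually.of_forall fun c h' => absurd h' h
  obtain ⟨n, b, hb, hbi, hbQ⟩ := exists_enum hQf hQp
  -- the linear relation
  obtain ⟨a, ha⟩ : ∃ a : Bool ⊕ Fin M → ℚ, a = Sum.elim (fun t => if t then z' else y')
      (fun j => if j ∈ J₃ then -1 else 0) := ⟨_, rfl⟩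
  obtain ⟨x, hx⟩ : ∃ x : ℕ → Bool ⊕ Fin M → ℚ, ∀ c, x c = Sum.elim
      (fun t => if t then (q : ℚ) ^ c else 1) (fun j => (s c j : ℚ)) := ⟨_, fun _ => rfl⟩
  have hax : ∀ᶠ c in U, (∀ i, a i ≠ 0 → IsSU b (x c i)) ∧ ∑ i, a i * x c i = 0 := by
    filter_upwards [hrel, hnz] with c h1 h2
    constructor
    · intro i hi
      rw [hx]
      rcases i with t | j
      · rcases t with _ | _
        · simp only [Sum.elim_inl, Bool.false_eq_true, if_false]
          exact isSU_one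
        · simp only [Sum.elim_inl, if_true]
          have := isSU_gen hb hbQ (gen_pow hq c)
          exact_mod_cast this
      · simp only [Sum.elim_inr]
        have hj : j ∈ J₃ := by
          by_contra h
          apply hi
          rw [ha, Sum.elim_inr, if_neg h]
        rcases hs0 c j with h | h
        · exact absurd h (h2 j hj)
        · exact isSU_gen hb hbQ h
    · rw [Fintype.sum_sum_type, hx, ha]
      simp only [Sum.elim_inl, Sum.elim_inr, Fintype.sum_bool, if_true, Bool.false_eq_true,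
        if_false, ite_mul, neg_one_mul, zero_mul, mul_one]
      rw [← Finset.sum_filter, Finset.sum_neg_distrib, Finset.filter_mem_eq_inter,
        Finset.univ_inter]
      linarith
  -- the partner of a term
  have hpartner : ∀ i₀, a i₀ ≠ 0 → ∃ j, j ≠ i₀ ∧ a j ≠ 0 ∧ ∃ t : ℚ, ∀ᶠ c in U,
      x c i₀ / x c j = t := by
    intro i₀ h₀
    obtain ⟨H, hH⟩ := sunit' hb hbi a i₀ h₀
    by_contra hcon
    push Not at hcon
    have h1 : ∀ᶠ c in U, ∀ j, j ≠ i₀ → a j ≠ 0 →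
        ¬ ((x c i₀ / x c j).num.natAbs ≤ H ∧ (x c i₀ / x c j).den ≤ H) := by
      refine Filter.eventually_all.2 fun j => ?_
      by_cases hj : j = i₀
      · exact Eventually.of_forall fun c h' => absurd hj h'
      by_cases hj' : a j = 0
      · exact Eventually.of_forall fun c _ h' => absurd hj' h'
      have h2 : ¬ ∀ᶠ c in U, x c i₀ / x c j ∈ {r : ℚ | r.num.natAbs ≤ H ∧ r.den ≤ H} := by
        intro h3
        obtain ⟨t, ht⟩ := const_of_finite U (fun c => x c i₀ / x c j) (finite_height H) h3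
        obtain ⟨c, hc, hc'⟩ := ((hcon j hj hj' t).and ht).exists
        exact hc hc'
      exact (Ultrafilter.eventually_not.2 h2).mono fun c hc _ _ => hc
    obtain ⟨c, h2, h3⟩ := (h1.and hax).exists
    obtain ⟨j, hj, hj', h4⟩ := hH (x c) h3.1 h3.2
    exact h2 j hj hj' h4
  -- powers of `q` are not constant
  have hpow : ∀ t : ℚ, ¬ ∀ᶠ c in U, (q : ℚ) ^ c = t := by
    intro t ht
    obtain ⟨c₁, h1⟩ := ht.exists
    obtain ⟨c₂, h2, h3⟩ := (ht.and (hU (eventually_gt_atTop c₁))).exists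
    rw [← h1] at h2
    have h4 : q ^ c₂ = q ^ c₁ := by exact_mod_cast h2
    have := Nat.pow_lt_pow_right hq1 h3
    omega
  have hJ3a : ∀ j, a (Sum.inr j) ≠ 0 → j ∈ J₃ := by
    intro j hj
    by_contra h
    apply hj
    rw [ha, Sum.elim_inr, if_neg h]
  have hy0 : y' = 0 := by
    by_contra hne
    have h0 : a (Sum.inl false) ≠ 0 := by rw [ha]; simpa using hne
    obtain ⟨i, hi, hi', t, ht⟩ := hpartner _ h0
    rcases i with u | j
    · rcases u with _ | _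
      · exact hi rfl
      · apply hpow t⁻¹
        filter_upwards [ht] with c hc
        rw [hx] at hc
        simp only [Sum.elim_inl, Bool.false_eq_true, if_false, if_true, one_div] at hc
        rw [← hc, inv_inv]
    · have hj := hJ3a j hi'
      apply ((hJ₃ j).1 hj).1
      rw [hJ₁]
      have h1 : ∀ᶠ c in U, (s c j : ℚ) = t⁻¹ := by
        filter_upwards [ht] with c hc
        rw [hx] at hc
        simp only [Sum.elim_inl, Bool.false_eq_true, if_false, Sum.elim_inr, one_div] at hc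
        rw [← hc, inv_inv]
      obtain ⟨c₁, hc₁⟩ := h1.exists
      refine ⟨s c₁ j, ?_⟩
      filter_upwards [h1] with c hc
      rw [← hc₁] at hc
      exact_mod_cast hc
  have hz0 : z' = 0 := by
    by_contra hne
    have h0 : a (Sum.inl true) ≠ 0 := by rw [ha]; simpa using hne
    obtain ⟨i, hi, hi', t, ht⟩ := hpartner _ h0
    rcases i with u | j
    · rcases u with _ | _
      · apply hi'
        rw [ha]
        simpa using hy0
      · exact hi rfl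
    · have hj := hJ3a j hi'
      apply ((hJ₃ j).1 hj).2
      rw [hJ₂]
      refine ⟨((hJ₃ j).1 hj).1, t⁻¹, ?_⟩
      filter_upwards [ht] with c hc
      rw [hx] at hc
      simp only [Sum.elim_inl, if_true, Sum.elim_inr] at hc
      rw [← hc, inv_div, div_mul_cancel₀]
      exact pow_ne_zero _ hq0
  -- conclusion
  obtain ⟨c, h1, h2⟩ := (hv'.and hr').exists
  obtain ⟨k₁, hk₁, hs₁⟩ := isSum_finset (Q := Q) (s c) J₁ fun j _ => hs0 c j
  obtain ⟨k₂, hk₂, hs₂⟩ := isSum_finset (Q := Q) (s c) J₂ fun j _ => hs0 c j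
  have e1 : ∑ j ∈ J₁, s c j = y := by
    rw [Finset.sum_congr rfl h1]
    have : (y : ℚ) = ((∑ j ∈ J₁, v j : ℤ) : ℚ) := by
      push_cast
      rw [hy0] at hy'
      linarith
    exact_mod_cast this.symm
  have e2 : ∑ j ∈ J₂, s c j = w * (q : ℤ) ^ c := by
    have : ((∑ j ∈ J₂, s c j : ℤ) : ℚ) = w * (q : ℚ) ^ c := by
      push_cast
      rw [Finset.sum_congr rfl h2, ← Finset.sum_mul]
      rw [hz0] at hz'
      rw [show ∑ j ∈ J₂, r j = w by linarith]
    exact_mod_cast this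
  rw [e1] at hs₁
  rw [e2] at hs₂
  have h3 : K ≤ k₁ := by
    by_contra h
    exact hy k₁ (by omega) hs₁
  have h4 : R < k₂ := by
    by_contra h
    exact hw c k₂ (by omega) hs₂
  have h5 := Finset.card_le_univ (J₁ ∪ J₂)
  rw [Finset.card_union_of_disjoint hdisj, Fintype.card_fin] at h5
  omega

lemma coprime_cl {Q : Set ℕ} (hQp : ∀ q ∈ Q, q.Prime) {p : ℕ} (hp : p.Prime) (hpQ : p ∉ Q) {t : ℕ}
    (ht : t ∈ Submonoid.closure Q) : Nat.Coprime p t := by
  induction ht using Submonoid.closure_induction with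
  | mem r hr => exact (Nat.coprime_primes hp (hQp r hr)).2 fun h => hpQ (h ▸ hr)
  | one => exact Nat.coprime_one_right p
  | mul a c _ _ ha hc => exact Nat.Coprime.mul_right ha hc

/-- the length of `p ^ κ q ^ c` tends to infinity with `κ`, uniformly in `c` -/
lemma long_powers {Q : Set ℕ} (hQf : Q.Finite) (hQp : ∀ q ∈ Q, q.Prime) {q : ℕ} (hq : q ∈ Q)
    {p : ℕ} (hp : p.Prime) (hpQ : p ∉ Q) (R : ℕ) :
    ∃ κ : ℕ, ∀ c : ℕ, ∀ k ≤ R, ¬ IsSum Q k ((p : ℤ) ^ κ * (q : ℤ) ^ c) := by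
  classical
  obtain ⟨n, b, hb, hbi, hbQ⟩ := exists_enum (Q := insert p Q) (hQf.insert p) (by
    intro r hr
    rcases Set.mem_insert_iff.1 hr with h | h
    · rw [h]; exact hp
    · exact hQp r h)
  have hH : ∀ k : ℕ, ∃ H : ℕ, ∀ x : Option (Fin k) → ℚ, (∀ i, IsSU b (x i)) →
      x none = ∑ i, x (some i) → ∃ j, (x none / x (some j)).num.natAbs ≤ H := by
    intro k
    obtain ⟨H, hH⟩ := sunit' hb hbi (fun i : Option (Fin k) => if i = none then 1 else -1) none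
      (by simp)
    refine ⟨H, fun x hx hs => ?_⟩
    obtain ⟨j, hj, _, h1, _⟩ := hH x (fun i _ => hx i) (by
      rw [Fintype.sum_option]
      simp only [if_true, one_mul, reduceCtorEq, if_false, neg_one_mul, Finset.sum_neg_distrib]
      rw [hs]
      ring)
    rcases j with _ | j
    · exact absurd rfl hj
    · exact ⟨j, h1⟩
  choose H hH using hH
  obtain ⟨κ, hκ⟩ : ∃ κ : ℕ, ∀ k ≤ R, H k < p ^ κ := by
    refine ⟨∑ k ∈ Finset.range (R + 1), H k, fun k hk => ?_⟩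
    have h1 : H k ≤ ∑ k ∈ Finset.range (R + 1), H k :=
      Finset.single_le_sum (f := H) (fun _ _ => Nat.zero_le _)
        (Finset.mem_range.2 (Nat.lt_succ_of_le hk))
    exact h1.trans_lt (Nat.lt_pow_self hp.one_lt)
  refine ⟨κ, fun c k hk hsum => ?_⟩
  obtain ⟨l, hlen, hl, hs⟩ := hsum
  subst hlen
  have hgen : ∀ {x : ℤ}, Gen Q x → Gen (insert p Q) x := by
    rintro x ⟨t, ht, h⟩
    exact ⟨t, Submonoid.closure_mono (Set.subset_insert _ _) ht, h⟩
  obtain ⟨j, hj⟩ := hH l.length (fun i => match i with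
      | none => ((p : ℚ) ^ κ * (q : ℚ) ^ c)
      | some i => ((l.get i : ℤ) : ℚ)) (by
    intro i
    rcases i with _ | i
    · have h1 : Gen (insert p Q) ((p : ℤ) ^ κ * (q : ℤ) ^ c) :=
        (gen_pow (Set.mem_insert _ _) κ).mul (gen_pow (Set.mem_insert_of_mem _ hq) c)
      have := isSU_gen hb hbQ h1
      exact_mod_cast this
    · exact isSU_gen hb hbQ (hgen (hl _ (List.get_mem _ _)))) (by
    have h1 : ∑ i : Fin l.length, l.get i = l.sum := by
      rw [← List.sum_ofFn, List.ofFn_get]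
    have h2 : ((l.sum : ℤ) : ℚ) = (p : ℚ) ^ κ * (q : ℚ) ^ c := by
      rw [hs]
      push_cast
      rfl
    simp only
    rw [← h2, ← h1]
    push_cast
    rfl)
  simp only at hj
  -- the numerator is divisible by `p ^ κ`
  obtain ⟨t, ht, ht'⟩ := hl _ (List.get_mem l j)
  have hcop := coprime_cl hQp hp hpQ ht
  have ht0 : t ≠ 0 := by
    rintro rfl
    rw [Nat.coprime_zero_right] at hcop
    exact hp.one_lt.ne' hcop
  obtain ⟨y, hy⟩ : ∃ y : ℤ, y = l.get j := ⟨_, rfl⟩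
  rw [← hy] at ht' hj
  have hy0 : y ≠ 0 := by
    rcases ht' with h | h
    · rw [h]; exact_mod_cast ht0
    · rw [h]; exact neg_ne_zero.2 (by exact_mod_cast ht0)
  have hyt : y.natAbs = t := by
    rcases ht' with h | h
    · rw [h, Int.natAbs_natCast]
    · rw [h, Int.natAbs_neg, Int.natAbs_natCast]
  obtain ⟨r, hr⟩ : ∃ r : ℚ, r = (p : ℚ) ^ κ * (q : ℚ) ^ c / (y : ℚ) := ⟨_, rfl⟩
  rw [← hr] at hj
  have hyQ : (y : ℚ) ≠ 0 := by exact_mod_cast hy0
  have h1 : r.num * y = (p : ℤ) ^ κ * (q : ℤ) ^ c * r.den := by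
    have h2 : r * y = (p : ℚ) ^ κ * (q : ℚ) ^ c := by rw [hr, div_mul_cancel₀ _ hyQ]
    have h3 : (r.num : ℚ) / r.den = r := Rat.num_div_den r
    have h4 : (r.den : ℚ) ≠ 0 := by exact_mod_cast r.den_ne_zero
    have h5 : (r.num : ℚ) * y = (p : ℚ) ^ κ * (q : ℚ) ^ c * r.den := by
      rw [← h2]
      nth_rewrite 2 [← h3]
      field_simp
    exact_mod_cast h5
  have h2 : (p ^ κ) ∣ r.num.natAbs * y.natAbs := by
    rw [← Int.natAbs_mul, h1]
    rw [Int.natAbs_mul, Int.natAbs_mul, Int.natAbs_pow, Int.natAbs_natCast]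
    exact ⟨_, by rw [mul_assoc]⟩
  rw [hyt] at h2
  have h3 : p ^ κ ∣ r.num.natAbs :=
    (Nat.Coprime.pow_left κ hcop).dvd_of_dvd_mul_right h2
  have h4 : r.num ≠ 0 := by
    intro h
    rw [h, zero_mul] at h1
    have h5 : (p : ℤ) ^ κ * (q : ℤ) ^ c * r.den ≠ 0 := by
      refine mul_ne_zero (mul_ne_zero (pow_ne_zero _ ?_) (pow_ne_zero _ ?_)) ?_
      · exact_mod_cast hp.ne_zero
      · exact_mod_cast (hQp q hq).ne_zero
      · exact_mod_cast r.den_ne_zero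
    exact h5 h1.symm
  have h5 := Nat.le_of_dvd (Int.natAbs_pos.2 h4) h3
  have h6 := hκ l.length hk
  omega

/-- the set of primes of the source is contained in that of the target -/
lemma subset_of_iso {Q Q' : Set ℕ} (hQf' : Q'.Finite) (hQ' : Q'.Nonempty)
    (hQp : ∀ q ∈ Q, q.Prime) (hQp' : ∀ q ∈ Q', q.Prime) {f g : ℤ → ℤ}
    (hf : CoarseHom (wd Q) (wd Q') f) (hg : Controlled (wd Q') (wd Q) g)
    (hfg : ∃ D : ℕ, ∀ y, wd Q' (f (g y)) y ≤ D) : Q ⊆ Q' := by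
  intro p hp
  by_contra hpQ
  obtain ⟨q, hq⟩ := hQ'
  obtain ⟨A, hA⟩ := main_ineq hf hg hfg hp (hQp p hp).one_lt.le
  obtain ⟨κ, hκ⟩ := long_powers hQf' hQp' hq (hQp p hp) hpQ A
  obtain ⟨B, hB⟩ := hA κ
  -- the sums
  have key : ∀ N : ℕ, ∃ x : ℤ, wd Q' x 0 ≤ N ∧
      ∀ k < N * (A + 1), ¬ IsSum Q' k ((p : ℤ) ^ κ * x) := by
    intro N
    induction N with
    | zero =>
      refine ⟨0, ?_, fun k hk => ?_⟩
      · rw [wd_self]
      · rw [zero_mul] at hk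
        exact absurd hk (Nat.not_lt_zero _)
    | succ N ih =>
      obtain ⟨x, hx, hx'⟩ := ih
      obtain ⟨c, hc⟩ := step hQf' hQp' hq ((p : ℤ) ^ κ * x) ((p : ℤ) ^ κ) (N * (A + 1)) A hx' hκ
      refine ⟨x + (q : ℤ) ^ c, ?_, fun k hk => ?_⟩
      · apply (wd_tri (x + (q : ℤ) ^ c) x 0).trans
        have : wd Q' (x + (q : ℤ) ^ c) x ≤ 1 := by
          apply wd_le
          rw [add_sub_cancel_left]
          exact IsSum.one (gen_pow hq c)
        omega
      · rw [mul_add]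
        apply hc
        rw [Nat.succ_mul] at hk
        omega
  obtain ⟨x, hx, hx'⟩ := key (B + 1)
  have h1 := hB x
  have h2 : (B + 1) * (A + 1) ≤ wd Q' ((p : ℤ) ^ κ * x) 0 := by
    by_contra h
    push Not at h
    have h3 := wd_spec (Q := Q') ((p : ℤ) ^ κ * x) 0
    rw [sub_zero] at h3
    exact hx' _ h h3
  have h3 : A * wd Q' x 0 ≤ A * (B + 1) := Nat.mul_le_mul_left _ hx
  nlinarith

/-- the inverse is a coarse homomorphism -/
lemma inverse_hom {Q Q' : Set ℕ} {f g : ℤ → ℤ} (hf : CoarseHom (wd Q) (wd Q') f)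
    (hg : Controlled (wd Q') (wd Q) g) (hgf : ∃ D : ℕ, ∀ x, wd Q (g (f x)) x ≤ D)
    (hfg : ∃ D : ℕ, ∀ y, wd Q' (f (g y)) y ≤ D) : CoarseHom (wd Q') (wd Q) g := by
  obtain ⟨_, C, hC⟩ := hf
  obtain ⟨D, hD⟩ := hgf
  obtain ⟨E, hE⟩ := hfg
  refine ⟨hg, ?_⟩
  obtain ⟨R, hR⟩ := hg (3 * E + C)
  refine ⟨R + 2 * D, fun x y => ?_⟩
  -- `f (g (x + y))` is close to `f (g x + g y)`
  have h1 := hE (x + y)
  have h2 := hE x
  have h3 := hE y
  have h4 := hC (g x) (g y)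
  have h5 : wd Q' (f (g x) + f (g y)) (x + y) ≤ 2 * E := by
    have t1 := wd_tri (Q := Q') (f (g x) + f (g y)) (x + f (g y)) (x + y)
    rw [wd_add] at t1
    have t2 : wd Q' (x + f (g y)) (x + y) = wd Q' (f (g y)) y := by
      rw [add_comm x, add_comm x, wd_add]
    omega
  have h6 : wd Q' (f (g (x + y))) (f (g x + g y)) ≤ 3 * E + C := by
    have t1 := wd_tri (Q := Q') (f (g (x + y))) (x + y) (f (g x + g y))
    have t2 := wd_tri (Q := Q') (x + y) (f (g x) + f (g y)) (f (g x + g y))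
    have t3 := wd_comm (Q := Q') (x + y) (f (g x) + f (g y))
    have t4 := wd_comm (Q := Q') (f (g x) + f (g y)) (f (g x + g y))
    omega
  have h7 := hR _ _ h6
  have h8 := hD (g (x + y))
  have h9 := hD (g x + g y)
  have t1 := wd_tri (Q := Q) (g (x + y)) (g (f (g (x + y)))) (g x + g y)
  have t2 := wd_tri (Q := Q) (g (f (g (x + y)))) (g (f (g x + g y))) (g x + g y)
  rw [wd_comm (g (x + y)) (g (f (g (x + y))))] at t1
  omega

/-- **The coarse groups `(ℤ, d_{Q₁})` and `(ℤ, d_{Q₂})` are coarsely isomorphic if and only if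
`Q₁ = Q₂`.** -/
theorem result (Q₁ Q₂ : Set ℕ) (hf₁ : Q₁.Finite) (hf₂ : Q₂.Finite) (hn₁ : Q₁.Nonempty)
    (hn₂ : Q₂.Nonempty) (hp₁ : ∀ p ∈ Q₁, p.Prime) (hp₂ : ∀ p ∈ Q₂, p.Prime) :
    CoarselyIsomorphic (wd Q₁) (wd Q₂) ↔ Q₁ = Q₂ := by
  constructor
  · rintro ⟨f, hf, g, hg, hgf, hfg⟩
    exact Set.Subset.antisymm (subset_of_iso hf₂ hn₂ hp₁ hp₂ hf hg hfg)
      (subset_of_iso hf₁ hn₁ hp₂ hp₁ (inverse_hom hf hg hgf hfg) hf.1 hgf)
  · rintro rfl
    refine ⟨id, ⟨fun r => ⟨r, fun x y h => h⟩, 0, fun x y => ?_⟩, id, fun r => ⟨r, fun x y h => h⟩,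
      ⟨0, fun x => ?_⟩, 0, fun x => ?_⟩ <;> simp [wd_self]

end Pool.Agent.Results.MP_584ea6_al.IsomorphicOnlyIfEqual
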